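import Mathlib

set_option autoImplicit false

/-! # Definitions for the final statement of project HU -/

open MeasureTheory Set Metric Filter Topology
open scoped ENNReal Real

noncomputable section

namespace Pool.Agent.TH703.HU

/-- `Per Ω E` is the relative perimeter `P(E; Ω)`: the supremum of `∫_E div φ` over all `C¹` vector
fields `φ` with compact support in `Ω` and `|φ| ≤ 1`. -/
def Per {n : ℕ} (Ω E : Set (EuclideanSpace ℝ (Fin n))) : ℝ≥0∞ :=
  ⨆ (φ : EuclideanSpace ℝ (Fin n) → EuclideanSpace ℝ (Fin n))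
    (_ : ContDiff ℝ 1 φ ∧ HasCompactSupport φ ∧ tsupport φ ⊆ Ω ∧ ∀ x, ‖φ x‖ ≤ 1),
    ENNReal.ofReal (∫ x in E, LinearMap.trace ℝ (EuclideanSpace ℝ (Fin n))
      (fderiv ℝ φ x).toLinearMap)

/-- `E` is an isoperimetric set of volume fraction `α` relative to `Ω`. -/
structure IsIso {n : ℕ} (Ω E : Set (EuclideanSpace ℝ (Fin n))) (α : ℝ) : Prop where
  meas : MeasurableSet E
  sub : E ⊆ Ω
  frac : volume E = ENNReal.ofReal α * volume Ω
  le : ∀ F : Set (EuclideanSpace ℝ (Fin n)), MeasurableSet F → F ⊆ Ω → volume F = volume E →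
    Per Ω E ≤ Per Ω F

/-- The canonical representative: the points of `Ω` at which `E` has Lebesgue density `1`. -/
def dens1 {n : ℕ} (Ω E : Set (EuclideanSpace ℝ (Fin n))) : Set (EuclideanSpace ℝ (Fin n)) :=
  {x | x ∈ Ω ∧ Tendsto (fun r : ℝ => volume (E ∩ ball x r) / volume (ball x r)) (𝓝[>] 0) (𝓝 1)}

end Pool.Agent.TH703.HU
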