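import Pool.Agent.TH703.HU.Final
import Pool.Agent.TH703.HU.Defs2

set_option autoImplicit false

/-! # Project HU: transfer to the thin body and the final statement -/

open MeasureTheory Set Metric Filter Topology
open scoped ENNReal Real

noncomputable section

namespace Pool.Agent.TH703.HU

open Pool.Agent.TH304.MI

lemma per_le_iff {b : ℕ} (Ω E : Set (PP b)) {C : ℝ} (hC : 0 ≤ C) :
    Per Ω E ≤ ENNReal.ofReal C ↔ PLe 1 Ω E C := by
  unfold Per PLe
  simp only [iSup_le_iff]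
  constructor
  · intro h φ hφ
    have h1 := h φ ⟨hφ.cd, hφ.cs, hφ.sub, fun x => by simpa [sc_one] using hφ.bd x⟩
    exact (ENNReal.ofReal_le_ofReal_iff hC).1 h1
  · intro h φ hφ
    refine ENNReal.ofReal_le_ofReal (h φ ⟨hφ.1, hφ.2.1, hφ.2.2.1, fun x => ?_⟩)
    rw [sc_one]
    exact hφ.2.2.2 x

lemma fld_zero {b : ℕ} (ε : ℝ) (Ω : Set (PP b)) : Fld ε Ω (fun _ => 0) :=
  ⟨contDiff_const, HasCompactSupport.zero, by
      rw [show (fun _ : PP b => (0 : PP b)) = 0 from rfl]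
      simp [tsupport], fun x => by
        have : sc ε (0 : PP b) = 0 := by
          ext i
          simp [sc_apply]
        rw [this, norm_zero]
        exact zero_le_one⟩

lemma nonneg_of_PLe {b : ℕ} {ε : ℝ} {Ω E : Set (PP b)} {C : ℝ} (h : PLe ε Ω E C) : 0 ≤ C := by
  have h0 := h _ (fld_zero ε Ω)
  have : dv (fun _ : PP b => (0 : PP b)) = fun _ => 0 := by
    funext x
    simp [dv]
  rw [this] at h0
  simpa using h0

theorem fin2 (a0 : S_A0) (a1 : S_A1) (a2 : S_A2) (a4 : S_A4) (b3 : S_B3) (b7 : S_B7)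
    (b8 : S_B8) (b9 : S_B9) (c0 : S_C0) (c13 : S_C13) :
    ∃ (n : ℕ) (Ω E : Set (EuclideanSpace ℝ (Fin n))) (α : ℝ), 1 ≤ n ∧ IsOpen Ω ∧ Convex ℝ Ω ∧
      Bornology.IsBounded Ω ∧ Ω.Nonempty ∧ 0 < α ∧ α < 1 ∧ IsIso Ω E α ∧ Per Ω E < ⊤ ∧
      convexHull ℝ (dens1 Ω E) = Ω := by
  obtain ⟨m, ε, ρ, F, hε, hρ, hF, hFB, hFpos, hmin, ⟨C₀, hC₀⟩, hnear⟩ :=
    core a0 a1 a2 b3 b7 b8 c0 c13
  obtain ⟨hBo, hBc, hBb, hB0⟩ := a0 m
  have hε' : ε ≠ 0 := hε.ne'
  set L := scC (2 * m + 1) ε hε' with hL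
  have hLs : ∀ S : Set (PP (2 * m + 1)), sc ε '' S = L '' S := fun S => rfl
  have hLm : ∀ {S : Set (PP (2 * m + 1))}, MeasurableSet S → MeasurableSet (L '' S) :=
    fun hS => (L.toHomeomorph.toMeasurableEquiv.measurableEmbedding.measurableSet_image).2 hS
  set κ : ℝ≥0∞ := ENNReal.ofReal |LinearMap.det (L : PP (2 * m + 1) →L[ℝ] PP (2 * m + 1)).toLinearMap|
    with hκ
  have hκv : ∀ S : Set (PP (2 * m + 1)), volume (L '' S) = κ * volume S := fun S =>
    Measure.addHaar_image_continuousLinearEquiv volume L S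
  have hdet : LinearMap.det (L : PP (2 * m + 1) →L[ℝ] PP (2 * m + 1)).toLinearMap ≠ 0 := by
    have := LinearEquiv.isUnit_det' L.toLinearEquiv
    exact this.ne_zero
  have hκ0 : κ ≠ 0 := by
    rw [hκ, Ne, ENNReal.ofReal_eq_zero, not_le]
    exact abs_pos.2 hdet
  have hκt : κ ≠ ⊤ := ENNReal.ofReal_ne_top
  set Ω : Set (PP (2 * m + 1)) := L '' Bd m with hΩ
  have hΩo : IsOpen Ω := L.toHomeomorph.isOpenMap _ hBo
  have hΩc : Convex ℝ Ω := hBc.linear_image (L : PP (2 * m + 1) →L[ℝ] PP (2 * m + 1)).toLinearMap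
  have hΩb : Bornology.IsBounded Ω :=
    (L : PP (2 * m + 1) →L[ℝ] PP (2 * m + 1)).lipschitz.isBounded_image hBb
  have hΩn : Ω.Nonempty := ⟨_, mem_image_of_mem _ hB0⟩
  have hΩfin : volume Ω ≠ ⊤ := hΩb.measure_lt_top.ne
  have hΩpos : volume Ω ≠ 0 := (hΩo.measure_pos volume hΩn).ne'
  have hFi : L '' F ⊆ Ω := image_mono hFB
  have hFim : MeasurableSet (L '' F) := hLm hF
  have hFfin : volume (L '' F) ≠ ⊤ := measure_ne_top_of_subset hFi hΩfin
  set E : Set (PP (2 * m + 1)) := Ω \ L '' F with hE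
  have hEm : MeasurableSet E := hΩo.measurableSet.diff hFim
  have hEΩ : E ⊆ Ω := sdiff_subset
  have hEv : volume E = volume Ω - volume (L '' F) := measure_sdiff hFi hFim.nullMeasurableSet hFfin
  have hFv : 0 < volume (L '' F) := by
    rw [hκv]
    exact ENNReal.mul_pos hκ0 hFpos.ne'
  have hEfin : volume E ≠ ⊤ := measure_ne_top_of_subset hEΩ hΩfin
  -- the part near the vertices
  set S : Set (PP (2 * m + 1)) := {p | p ∈ Bd m ∧ (‖xc p - 1‖ < ρ ∨ ‖xc p + 1‖ < ρ ∨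
    ‖xc p - Complex.I‖ < ρ ∨ ‖xc p + Complex.I‖ < ρ)} with hS
  have hxc : Continuous (xc : PP (2 * m + 1) → ℂ) := by
    have : (xc : PP (2 * m + 1) → ℂ) =
        fun p => ((p 0 : ℝ) : ℂ) + ((p 1 : ℝ) : ℂ) * Complex.I := by
      funext p
      apply Complex.ext <;> simp [xc]
    rw [this]
    fun_prop
  have hSo : IsOpen S := by
    have e : S = Bd m ∩ ({p | ‖xc p - 1‖ < ρ} ∪ ({p | ‖xc p + 1‖ < ρ} ∪
        ({p | ‖xc p - Complex.I‖ < ρ} ∪ {p | ‖xc p + Complex.I‖ < ρ}))) := rfl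
    rw [e]
    refine hBo.inter ((isOpen_lt ?_ continuous_const).union ((isOpen_lt ?_ continuous_const).union
      ((isOpen_lt ?_ continuous_const).union (isOpen_lt ?_ continuous_const)))) <;> fun_prop
  have hShull : convexHull ℝ S = Bd m := a4 m ρ hρ
  have hSne : S.Nonempty := by
    rw [← convexHull_nonempty_iff (𝕜 := ℝ), hShull]
    exact ⟨_, hB0⟩
  have hSF : volume (F ∩ S) = 0 :=
    measure_mono_null (s := F ∩ S) (t := F ∩ {p | Near ρ p}) (fun p hp => ⟨hp.1, hp.2.2⟩) hnear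
  have hLSo : IsOpen (L '' S) := L.toHomeomorph.isOpenMap _ hSo
  have hSΩ : L '' S ⊆ Ω := image_mono fun p hp => hp.1
  have hLSF : volume (L '' F ∩ L '' S) = 0 := by
    rw [← image_inter L.injective, hκv, hSF, mul_zero]
  have hEpos : volume E ≠ 0 := by
    intro h0
    have h1 : volume (L '' S) = 0 := by
      refine measure_mono_null (t := E ∪ (L '' F ∩ L '' S)) ?_ (measure_union_null h0 hLSF)
      intro p hp
      by_cases hpF : p ∈ L '' F
      · exact Or.inr ⟨hpF, hp⟩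
      · exact Or.inl ⟨hSΩ hp, hpF⟩
    exact (hLSo.measure_pos volume (hSne.image _)).ne' h1
  -- volume fraction
  set α : ℝ := (volume E / volume Ω).toReal with hα
  have hαne : volume E / volume Ω ≠ ⊤ := (ENNReal.div_lt_top hEfin hΩpos).ne
  have hαE : volume E = ENNReal.ofReal α * volume Ω := by
    rw [hα, ENNReal.ofReal_toReal hαne, ENNReal.div_mul_cancel hΩpos hΩfin]
  have hα0 : 0 < α := by
    rw [hα, ENNReal.toReal_pos_iff]
    exact ⟨ENNReal.div_pos hEpos hΩfin, hαne.lt_top⟩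
  have hα1 : α < 1 := by
    have h1 : volume E < volume Ω := by
      rw [hEv]
      exact ENNReal.sub_lt_self hΩfin hΩpos hFv.ne'
    have h2 : volume E / volume Ω < 1 := by
      rw [ENNReal.div_lt_iff (Or.inl hΩpos) (Or.inl hΩfin), one_mul]
      exact h1
    have := (ENNReal.toReal_lt_toReal hαne ENNReal.one_ne_top).2 h2
    rw [ENNReal.toReal_one] at this
    exact this
  -- transfer of perimeter bounds between `F` and `E`
  have hEC : ∀ C : ℝ, PLe ε (Bd m) F C → PLe 1 Ω E (ε ^ (2 * m + 1) * C) := by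
    intro C hC
    have h1 := (b9 _ _ ε hε hBo F hF hFB C).1 hC
    exact PLe_compl hFim hFi h1
  have hεp : (0 : ℝ) < ε ^ (2 * m + 1) := by positivity
  refine ⟨2 * m + 1 + 2, Ω, E, α, by omega, hΩo, hΩc, hΩb, hΩn, hα0, hα1,
    ⟨hEm, hEΩ, hαE, ?_⟩, ?_, ?_⟩
  · -- minimality
    intro H hH hHΩ hHv
    by_cases htop : Per Ω H = ⊤
    · rw [htop]
      exact le_top
    have hC : Per Ω H ≤ ENNReal.ofReal (Per Ω H).toReal := by rw [ENNReal.ofReal_toReal htop]
    have h1 := (per_le_iff Ω H ENNReal.toReal_nonneg).1 hC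
    have h2 := PLe_compl hH hHΩ h1
    set G : Set (PP (2 * m + 1)) := L ⁻¹' (Ω \ H) with hG
    have hGm : MeasurableSet G := L.continuous.measurable (hΩo.measurableSet.diff hH)
    have hGB : G ⊆ Bd m := by
      intro p hp
      obtain ⟨q, hq, hqp⟩ := (hp : L p ∈ Ω \ H).1
      have := L.injective hqp
      exact this ▸ hq
    have hLG : L '' G = Ω \ H := by
      rw [hG, image_preimage_eq _ L.surjective]
    have h3 : PLe 1 (sc ε '' Bd m) (sc ε '' G)
        (ε ^ (2 * m + 1) * ((Per Ω H).toReal / ε ^ (2 * m + 1))) := by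
      rw [mul_div_cancel₀ _ hεp.ne', hLs, hLs, hLG]
      exact h2
    have h4 := (b9 _ _ ε hε hBo G hGm hGB _).2 h3
    have hHfin : volume H ≠ ⊤ := measure_ne_top_of_subset hHΩ hΩfin
    have hGv : volume G = volume F := by
      have h5 : volume (L '' G) = volume (L '' F) := by
        rw [hLG, measure_sdiff hHΩ hH.nullMeasurableSet hHfin, hHv, hEv]
        exact ENNReal.sub_sub_cancel hΩfin (measure_mono hFi)
      rw [hκv, hκv] at h5
      exact (ENNReal.mul_right_inj hκ0 hκt).1 h5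
    have h6 := hmin G hGm hGB hGv _ h4
    have h7 := hEC _ h6
    rw [mul_div_cancel₀ _ hεp.ne'] at h7
    calc Per Ω E ≤ ENNReal.ofReal (Per Ω H).toReal :=
          (per_le_iff Ω E ENNReal.toReal_nonneg).2 h7
      _ = Per Ω H := ENNReal.ofReal_toReal htop
  · -- finite perimeter
    have h1 := hEC _ hC₀
    exact lt_of_le_of_lt ((per_le_iff Ω E (nonneg_of_PLe h1)).2 h1) ENNReal.ofReal_lt_top
  · -- the convex hull
    apply Subset.antisymm
    · exact convexHull_min (fun x hx => hx.1) hΩc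
    · have h1 : L '' S ⊆ dens1 Ω E := by
        intro x hx
        refine ⟨hSΩ hx, ?_⟩
        obtain ⟨r₀, hr₀, hball⟩ := Metric.isOpen_iff.1 hLSo x hx
        refine Tendsto.congr' ?_ tendsto_const_nhds
        have hev : ∀ᶠ r : ℝ in 𝓝[>] 0, r ∈ Ioo 0 r₀ := Ioo_mem_nhdsGT hr₀
        filter_upwards [hev] with r hr
        have h2 : volume (E ∩ ball x r) = volume (ball x r) := by
          apply le_antisymm (measure_mono inter_subset_right)
          have h3 : ball x r ⊆ (E ∩ ball x r) ∪ (L '' F ∩ L '' S) := by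
            intro y hy
            have hyS : y ∈ L '' S := hball (ball_subset_ball hr.2.le hy)
            by_cases hyF : y ∈ L '' F
            · exact Or.inr ⟨hyF, hyS⟩
            · exact Or.inl ⟨⟨hSΩ hyS, hyF⟩, hy⟩
          calc volume (ball x r) ≤ volume ((E ∩ ball x r) ∪ (L '' F ∩ L '' S)) := measure_mono h3
            _ ≤ volume (E ∩ ball x r) + volume (L '' F ∩ L '' S) := measure_union_le _ _
            _ = volume (E ∩ ball x r) := by rw [hLSF, add_zero]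
        rw [h2]
        exact (ENNReal.div_self (measure_ball_pos volume x hr.1).ne' measure_ball_lt_top.ne).symm
      calc Ω = L '' (convexHull ℝ S) := by rw [hShull]
        _ = convexHull ℝ (L '' S) :=
            (L : PP (2 * m + 1) →L[ℝ] PP (2 * m + 1)).toLinearMap.image_convexHull S
        _ ⊆ convexHull ℝ (dens1 Ω E) := convexHull_mono h1

/-- **Final statement.** -/
theorem final (a0 : S_A0) (a1 : S_A1) (a2 : S_A2) (a4 : S_A4) (b3 : S_B3) (b7 : S_B7)
    (b8 : S_B8) (b9 : S_B9) (c0 : S_C0) (c13 : S_C13) :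
    (∃ (n : ℕ) (Ω E : Set (EuclideanSpace ℝ (Fin n))) (α : ℝ), 1 ≤ n ∧ IsOpen Ω ∧ Convex ℝ Ω ∧
      Bornology.IsBounded Ω ∧ Ω.Nonempty ∧ 0 < α ∧ α < 1 ∧ IsIso Ω E α ∧ Per Ω E < ⊤ ∧
      convexHull ℝ (dens1 Ω E) = Ω) ∧
    ¬ (∀ (n : ℕ) (α : ℝ), 1 ≤ n → 0 < α → α < 1 → ∃ c : ℝ, 0 < c ∧
      ∀ Ω E : Set (EuclideanSpace ℝ (Fin n)), IsOpen Ω → Convex ℝ Ω → Bornology.IsBounded Ω →
        Ω.Nonempty → IsIso Ω E α →
        volume (convexHull ℝ (dens1 Ω E)) ≤ ENNReal.ofReal (1 - c) * volume Ω) := by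
  have h := fin2 a0 a1 a2 a4 b3 b7 b8 b9 c0 c13
  refine ⟨h, fun hb => ?_⟩
  obtain ⟨n, Ω, E, α, hn, hΩo, hΩc, hΩb, hΩn, h0, h1, hE, -, hhull⟩ := h
  obtain ⟨c, hc, hall⟩ := hb n α hn h0 h1
  have h2 := hall Ω E hΩo hΩc hΩb hΩn hE
  rw [hhull] at h2
  have hpos : volume Ω ≠ 0 := (hΩo.measure_pos volume hΩn).ne'
  have hfin : volume Ω ≠ ⊤ := hΩb.measure_lt_top.ne
  have h3 : ENNReal.ofReal (1 - c) * volume Ω < volume Ω := by
    have h4 : ENNReal.ofReal (1 - c) < 1 := by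
      rw [← ENNReal.ofReal_one]
      exact (ENNReal.ofReal_lt_ofReal_iff one_pos).2 (by linarith)
    calc ENNReal.ofReal (1 - c) * volume Ω < 1 * volume Ω :=
          ENNReal.mul_lt_mul_left hpos hfin h4
      _ = volume Ω := one_mul _
  exact absurd h2 (not_le.2 h3)

end Pool.Agent.TH703.HU
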