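import Pool.Agent.TH703.HU.Stm
import Pool.Agent.TH703.Cone.Div

set_option autoImplicit false

/-! # Project HU: the final assembly -/

open MeasureTheory Set Metric Filter Topology
open scoped ENNReal Real

noncomputable section

namespace Pool.Agent.TH703.HU

open Pool.Agent.TH304.MI

/-! ## The scaling map -/

lemma sc_apply {b : ℕ} (ε : ℝ) (p : PP b) (i : Fin (b + 2)) :
    sc ε p i = if (i : ℕ) < 2 then p i else ε * p i := rfl

/-- the scaling as a linear equivalence -/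
def scE (b : ℕ) (ε : ℝ) (hε : ε ≠ 0) : PP b ≃ₗ[ℝ] PP b where
  toFun := sc ε
  invFun := sc ε⁻¹
  map_add' p q := by
    ext i
    simp only [sc_apply, PiLp.add_apply]
    split_ifs <;> ring
  map_smul' t p := by
    ext i
    simp only [sc_apply, PiLp.smul_apply, smul_eq_mul, RingHom.id_apply]
    split_ifs <;> ring
  left_inv p := by
    ext i
    simp only [sc_apply]
    split_ifs
    · rfl
    · field_simp
  right_inv p := by
    ext i
    simp only [sc_apply]
    split_ifs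
    · rfl
    · field_simp

/-- the scaling as a continuous linear equivalence -/
def scC (b : ℕ) (ε : ℝ) (hε : ε ≠ 0) : PP b ≃L[ℝ] PP b := (scE b ε hε).toContinuousLinearEquiv

lemma scC_apply {b : ℕ} {ε : ℝ} (hε : ε ≠ 0) (p : PP b) : scC b ε hε p = sc ε p := rfl

lemma sc_image {b : ℕ} {ε : ℝ} (hε : ε ≠ 0) (S : Set (PP b)) :
    sc ε '' S = scC b ε hε '' S := rfl

lemma sc_one {b : ℕ} (p : PP b) : sc 1 p = p := by
  ext i
  simp only [sc_apply, one_mul, ite_self]

lemma xc_sc {b : ℕ} (ε : ℝ) (p : PP b) : xc (sc ε p) = xc p := by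
  unfold xc
  simp [sc_apply]

lemma dv_eq {n : ℕ} (φ : EuclideanSpace ℝ (Fin n) → EuclideanSpace ℝ (Fin n)) :
    dv φ = Pool.Agent.TH703.Cone.dv φ := rfl

/-! ## Complements -/

lemma PLe_compl {b : ℕ} {ε : ℝ} {Ω F : Set (PP b)} (hF : MeasurableSet F)
    (hFΩ : F ⊆ Ω) {C : ℝ} (h : PLe ε Ω F C) : PLe ε Ω (Ω \ F) C := by
  intro φ hφ
  have hneg : Fld ε Ω (fun p => - φ p) := by
    refine ⟨hφ.cd.neg, hφ.cs.neg, ?_, ?_⟩
    · rw [show (fun p => - φ p) = -φ from rfl, tsupport_neg]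
      exact hφ.sub
    · intro x
      have : sc ε (- φ x) = - sc ε (φ x) := by
        ext i
        simp only [sc_apply, PiLp.neg_apply]
        split_ifs <;> ring
      rw [this, norm_neg]
      exact hφ.bd x
  have h1 := h _ hneg
  have hint : Integrable (dv φ) := Pool.Agent.TH703.Cone.Div.integrable_dv hφ.cd hφ.cs
  have h0 : ∫ x, dv φ x = 0 := Pool.Agent.TH703.Cone.Div.integral_dv hφ.cd hφ.cs
  have h2 : ∫ x in Ω, dv φ x = 0 := by
    rw [← h0]
    apply setIntegral_eq_integral_of_forall_compl_eq_zero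
    intro x hx
    exact Pool.Agent.TH703.Cone.Div.dv_eq_zero_of_notMem fun hx' => hx (hφ.sub hx')
  have h3 : ∫ x in Ω \ F, dv φ x = - ∫ x in F, dv φ x := by
    have := setIntegral_sdiff (μ := volume) (f := dv φ) hF hint.integrableOn hFΩ
    rw [this, h2, zero_sub]
  have h4 : ∫ x in F, dv (fun p => - φ p) x = - ∫ x in F, dv φ x := by
    rw [← integral_neg]
    refine integral_congr_ae (Eventually.of_forall fun x => ?_)
    exact Pool.Agent.TH703.Cone.Div.dv_neg φ x
  rw [h3, ← h4]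
  exact h1


/-! ## The thin body -/

/-- near one of the four vertices -/
def Near {b : ℕ} (ρ : ℝ) (p : PP b) : Prop :=
  ‖xc p - 1‖ < ρ ∨ ‖xc p + 1‖ < ρ ∨ ‖xc p - Complex.I‖ < ρ ∨ ‖xc p + Complex.I‖ < ρ

lemma wt_zero (c0 : S_C0) {m : ℕ} (hm : 1 ≤ m) {x : ℂ} (hx : x ∉ DD) : wt m x = 0 := by
  obtain ⟨-, -, h0, -, hD, -⟩ := c0 m hm
  rcases (h0 x).lt_or_eq with h | h
  · exact absurd (hD ▸ h : x ∈ DD) hx
  · exact h.symm

lemma vol_cyl_ball (a1 : S_A1) (c0 : S_C0) {m : ℕ} (hm : 1 ≤ m) {A : Set ℂ}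
    (hA : MeasurableSet A) {c : ℂ} {R : ℝ} (h : volume (A ∩ DD ∩ ball c R) = 0) :
    volume.real (cylO (Bd m) A ∩ {p | ‖xc p - c‖ < R}) = 0 := by
  have h1 : cylO (Bd m) A ∩ {p | ‖xc p - c‖ < R} = cylO (Bd m) (A ∩ ball c R) := by
    ext p
    simp only [cylO, mem_inter_iff, mem_setOf_eq, mem_ball, dist_eq_norm]
    tauto
  rw [h1, a1 m _ (hA.inter measurableSet_ball)]
  have h2 : mu (wt m) (A ∩ ball c R) = 0 := by
    unfold mu
    have h3 : ∫ x in A ∩ ball c R, wt m x = ∫ x in (A ∩ ball c R) ∩ DD, wt m x := by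
      have hDm : MeasurableSet DD := by
        have : IsOpen DD := by
          unfold DD
          exact isOpen_lt (by fun_prop) continuous_const
        exact this.measurableSet
      rw [← setIntegral_indicator hDm]
      refine integral_congr_ae (Eventually.of_forall fun x => ?_)
      by_cases hx : x ∈ DD
      · simp [indicator_of_mem hx]
      · simp [indicator_of_notMem hx, wt_zero c0 hm hx]
    rw [h3]
    apply setIntegral_measure_zero
    rw [inter_right_comm]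
    exact h
  rw [h2, mul_zero]

theorem core (a0 : S_A0) (a1 : S_A1) (a2 : S_A2) (b3 : S_B3) (b7 : S_B7) (b8 : S_B8)
    (c0 : S_C0) (c13 : S_C13) :
    ∃ (m : ℕ) (ε ρ : ℝ) (F : Set (PP (2 * m + 1))), 0 < ε ∧ 0 < ρ ∧ MeasurableSet F ∧
      F ⊆ Bd m ∧ 0 < volume F ∧
      (∀ G : Set (PP (2 * m + 1)), MeasurableSet G → G ⊆ Bd m → volume G = volume F →
        ∀ C : ℝ, PLe ε (Bd m) G C → PLe ε (Bd m) F C) ∧
      (∃ C : ℝ, PLe ε (Bd m) F C) ∧ volume (F ∩ {p | Near ρ p}) = 0 := by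
  obtain ⟨Λ, v, m, hΛ, hv, -, hm, ⟨G, C, hG, hGv, hGC, hneg⟩, hpl⟩ := c13
  obtain ⟨hN, -, hw0, -, hD, -⟩ := c0 m hm
  obtain ⟨hBo, hBc, hBb, hB0⟩ := a0 m
  have hBne : (Bd m).Nonempty := ⟨0, hB0⟩
  set N := NN m with hNdef
  -- minimizers for a sequence of parameters
  have hex : ∀ k : ℕ, ∃ F : Set (PP (2 * m + 1)), MinB (1 / ((k : ℝ) + 1)) (Bd m) Λ (N * v) F := by
    intro k
    have hk : (0 : ℝ) < (k : ℝ) + 1 := by positivity
    refine b3 _ _ hBo hBc hBb _ _ _ (by positivity) ?_ hΛ.le (by positivity)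
    rw [div_le_one hk]
    linarith [(Nat.cast_nonneg k : (0 : ℝ) ≤ k)]
  choose F hF using hex
  obtain ⟨A, ψ, hA, hψ, hlim⟩ := b8 m Λ v hΛ.le hv.le (fun k => 1 / ((k : ℝ) + 1)) F
    (fun k => by
      have hk : (0 : ℝ) < (k : ℝ) + 1 := by positivity
      refine ⟨by positivity, ?_⟩
      rw [div_le_one hk]
      linarith [(Nat.cast_nonneg k : (0 : ℝ) ≤ k)])
    tendsto_one_div_add_atTop_nhds_zero_nat hF
  -- extinction constants
  have h20 : (0 : ℝ) < 1 / 20 := by norm_num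
  have hext : ∀ c : ℂ, ∃ ω : ℝ, 0 < ω ∧ ∀ (ε : ℝ) (F : Set (PP (2 * m + 1))), 0 < ε → ε ≤ 1 →
      MinB ε (Bd m) Λ (N * v) F → volume.real (F ∩ {p | ‖xc p - c‖ < 1 / 20}) ≤ ω →
        volume (F ∩ {p | ‖xc p - c‖ < 1 / 20 / 2}) = 0 :=
    fun c => b7 _ _ hBo hBc hBb hBne Λ (N * v) (1 / 20) c hΛ.le h20
  choose ω hω hext using hext
  set ω₀ : ℝ := min (min (ω 1) (ω (-1))) (min (ω Complex.I) (ω (-Complex.I))) with hω₀
  have hω₀pos : 0 < ω₀ := lt_min (lt_min (hω _) (hω _)) (lt_min (hω _) (hω _))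
  obtain ⟨k, hk⟩ : ∃ k : ℕ, volume (symmDiff (F (ψ k)) (cylO (Bd m) A)) < ENNReal.ofReal ω₀ :=
    ((tendsto_order.1 hlim).2 _ (by simpa using hω₀pos)).exists
  set j := ψ k with hj
  have hj0 : (0 : ℝ) < (j : ℝ) + 1 := by positivity
  have hε0 : (0 : ℝ) < 1 / ((j : ℝ) + 1) := by positivity
  have hε1 : 1 / ((j : ℝ) + 1) ≤ 1 := by
    rw [div_le_one hj0]
    linarith [(Nat.cast_nonneg j : (0 : ℝ) ≤ j)]
  have hBfin : volume (Bd m) ≠ ⊤ := hBb.measure_lt_top.ne
  have hFfin : volume (F j) ≠ ⊤ := measure_ne_top_of_subset (hF j).sub hBfin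
  have hkey : ∀ c : ℂ, (c = 1 ∨ c = -1 ∨ c = Complex.I ∨ c = -Complex.I) → ω₀ ≤ ω c →
      volume (F j ∩ {p | ‖xc p - c‖ < 1 / 20 / 2}) = 0 := by
    intro c hc hωc
    refine hext c _ _ hε0 hε1 (hF j) (le_trans ?_ hωc)
    have h1 := vol_cyl_ball a1 c0 hm hA.meas (hpl A hA c hc)
    have h2 : F j ∩ {p | ‖xc p - c‖ < 1 / 20} ⊆
        (cylO (Bd m) A ∩ {p | ‖xc p - c‖ < 1 / 20}) ∪ symmDiff (F j) (cylO (Bd m) A) := by
      rintro p ⟨hp1, hp2⟩
      by_cases hp3 : p ∈ cylO (Bd m) A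
      · exact Or.inl ⟨hp3, hp2⟩
      · exact Or.inr (Or.inl ⟨hp1, hp3⟩)
    have h3 : volume (symmDiff (F j) (cylO (Bd m) A)) ≠ ⊤ := ne_top_of_lt hk
    have h4 : volume (cylO (Bd m) A ∩ {p | ‖xc p - c‖ < 1 / 20}) ≠ ⊤ :=
      measure_ne_top_of_subset (fun p hp => hp.1.1) hBfin
    calc volume.real (F j ∩ {p | ‖xc p - c‖ < 1 / 20})
        ≤ volume.real ((cylO (Bd m) A ∩ {p | ‖xc p - c‖ < 1 / 20}) ∪
            symmDiff (F j) (cylO (Bd m) A)) := measureReal_mono h2 (by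
              rw [← lt_top_iff_ne_top]
              exact measure_union_lt_top h4.lt_top h3.lt_top)
      _ ≤ volume.real (cylO (Bd m) A ∩ {p | ‖xc p - c‖ < 1 / 20}) +
            volume.real (symmDiff (F j) (cylO (Bd m) A)) := measureReal_union_le _ _
      _ = volume.real (symmDiff (F j) (cylO (Bd m) A)) := by rw [h1, zero_add]
      _ ≤ ω₀ := by
          have := ENNReal.toReal_mono ENNReal.ofReal_ne_top hk.le
          rwa [ENNReal.toReal_ofReal hω₀pos.le] at this
  have hvol : volume (F j ∩ {p | Near (1 / 20 / 2) p}) = 0 := by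
    have h1 := hkey 1 (Or.inl rfl) (le_trans (min_le_left _ _) (min_le_left _ _))
    have h2 := hkey (-1) (Or.inr (Or.inl rfl)) (le_trans (min_le_left _ _) (min_le_right _ _))
    have h3 := hkey Complex.I (Or.inr (Or.inr (Or.inl rfl)))
      (le_trans (min_le_right _ _) (min_le_left _ _))
    have h4 := hkey (-Complex.I) (Or.inr (Or.inr (Or.inr rfl)))
      (le_trans (min_le_right _ _) (min_le_right _ _))
    refine measure_mono_null (t := (F j ∩ {p | ‖xc p - 1‖ < 1 / 20 / 2}) ∪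
      (F j ∩ {p | ‖xc p - -1‖ < 1 / 20 / 2}) ∪ (F j ∩ {p | ‖xc p - Complex.I‖ < 1 / 20 / 2}) ∪
      (F j ∩ {p | ‖xc p - -Complex.I‖ < 1 / 20 / 2})) ?_ ?_
    · rintro p ⟨hp, hp'⟩
      simp only [mem_setOf_eq, Near] at hp'
      simp only [mem_union, mem_inter_iff, mem_setOf_eq, sub_neg_eq_add]
      tauto
    · exact measure_union_null (measure_union_null (measure_union_null h1 h2) h3) h4
  -- the energy of the competitor
  have hcomp := (hF j).min (cylO (Bd m) G) (N * C) (by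
      have hx : Measurable (xc : PP (2 * m + 1) → ℂ) := by
        have : (xc : PP (2 * m + 1) → ℂ) =
            fun p => ((p 0 : ℝ) : ℂ) + ((p 1 : ℝ) : ℂ) * Complex.I := by
          funext p
          apply Complex.ext <;> simp [xc]
        rw [this]
        fun_prop
      exact hBo.measurableSet.inter (hx hG)) (fun p hp => hp.1)
    (by rw [a1 m G hG]; exact mul_le_mul_of_nonneg_left hGv hN.le)
    (a2 m _ hε0 G hG C hGC)
  refine ⟨m, 1 / ((j : ℝ) + 1), 1 / 20 / 2, F j, hε0, by norm_num, (hF j).meas, (hF j).sub, ?_,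
    ?_, ⟨_, hcomp⟩, hvol⟩
  · -- positive volume
    have h0 := hcomp (fun _ => 0) ⟨contDiff_const, HasCompactSupport.zero, by
      rw [show (fun _ : PP (2 * m + 1) => (0 : PP (2 * m + 1))) = 0 from rfl]
      simp [tsupport], fun x => by
        have : sc (1 / ((j : ℝ) + 1)) (0 : PP (2 * m + 1)) = 0 := by
          ext i
          simp [sc_apply]
        rw [this, norm_zero]
        exact zero_le_one⟩
    have hz : ∫ x in F j, dv (fun _ : PP (2 * m + 1) => (0 : PP (2 * m + 1))) x = 0 := by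
      have : dv (fun _ : PP (2 * m + 1) => (0 : PP (2 * m + 1))) = fun _ => 0 := by
        funext x
        simp [dv]
      rw [this]
      simp
    rw [hz, a1 m G hG] at h0
    by_contra hcon
    have hv0 : volume (F j) = 0 := by simpa using hcon
    have hr0 : volume.real (F j) = 0 := by simp [Measure.real, hv0]
    rw [hr0] at h0
    have : N * C + Λ * (0 - N * mu (wt m) G) < 0 := by
      have : N * C < N * (Λ * mu (wt m) G) := mul_lt_mul_of_pos_left hneg hN
      linarith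
    linarith
  · intro H hH hHB hHv C' hC'
    have hr : volume.real H = volume.real (F j) := by simp [Measure.real, hHv]
    have := (hF j).min H C' hH hHB (by rw [hr]; exact (hF j).le) hC'
    rw [hr, sub_self, mul_zero, add_zero] at this
    exact this

end Pool.Agent.TH703.HU
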