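import Pool.Agent.TH304.MI.Defs

/-!
# Project HU: an isoperimetric set whose convex hull is the whole domain (MP_b478d8_an)

Body `Bd m ⊆ ℝ^(2m+3)`: `x ∈ ℂ`, `s = y 0 ∈ (-1/2, 1/2)`, and `2 m` further coordinates:
`|re x| < 1/2 + s`, `|im x| < 1/2 - s`, `|y (i+1)| < 1/2 + s` (`i < m`),
`|y (i+1)| < 1/2 - s` (`m ≤ i < 2m`).  All extreme points lie over `x = ±1, ±i`.
The fibre over `x` has volume `NN m * wt m x`; for large `m` the weight is almost `1` on the square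
`|re x|, |im x| < 1/2` and almost `0` outside.

We work with the anisotropic perimeter `PLe ε` (fields `φ` with `‖sc ε (φ p)‖ ≤ 1`) on the fixed
body, which is the perimeter relative to the thin body `sc ε '' Bd m`.
-/

set_option autoImplicit false

open MeasureTheory Set Metric Filter Topology
open scoped ENNReal Real

noncomputable section

namespace Pool.Agent.TH703.HU

open Pool.Agent.TH304.MI

/-! ## Definitions -/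

/-- The convex body. -/
def Bd (m : ℕ) : Set (PP (2 * m + 1)) :=
  {p | |(xc p).re| < 1 / 2 + yc p 0 ∧ |(xc p).im| < 1 / 2 - yc p 0 ∧
    ∀ i : Fin (2 * m), if (i : ℕ) < m then |yc p i.succ| < 1 / 2 + yc p 0
      else |yc p i.succ| < 1 / 2 - yc p 0}

/-- The part of `Ω` over `A`. -/
def cylO {b : ℕ} (Ω : Set (PP b)) (A : Set ℂ) : Set (PP b) := {p | p ∈ Ω ∧ xc p ∈ A}

/-- Normalising constant. -/
def NN (m : ℕ) : ℝ := ∫ u in (-(1 / 2) : ℝ)..(1 / 2), (1 - 4 * u ^ 2) ^ m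

/-- The diamond. -/
def DD : Set ℂ := {x | |x.re| + |x.im| < 1}

/-- The normalised weight; it vanishes outside the diamond. -/
def wt (m : ℕ) (x : ℂ) : ℝ :=
  (∫ u in (|x.re| - 1 / 2)..(max (|x.re| - 1 / 2) (1 / 2 - |x.im|)), (1 - 4 * u ^ 2) ^ m) / NN m

/-- Planar fields for the weight `w`. -/
structure TW (w : ℂ → ℝ) (Y : ℂ → ℂ) : Prop where
  cd : ContDiff ℝ 1 Y
  cs : HasCompactSupport Y
  sub : tsupport Y ⊆ {x | 0 < w x}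
  le : ∀ x, ‖Y x‖ ≤ w x

/-- The weighted perimeter of `A` is at most `C`. -/
def PW (w : ℂ → ℝ) (A : Set ℂ) (C : ℝ) : Prop := ∀ Y : ℂ → ℂ, TW w Y → ∫ x in A, dv2 Y x ≤ C

/-- Weighted mass. -/
def mu (w : ℂ → ℝ) (A : Set ℂ) : ℝ := ∫ x in A, w x

/-- `A` minimizes `perimeter - Λ mass` among the sets of mass at most `v` (planar). -/
structure MinW (w : ℂ → ℝ) (Λ v : ℝ) (A : Set ℂ) : Prop where
  meas : MeasurableSet A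
  le : mu w A ≤ v
  min : ∀ (F : Set ℂ) (C : ℝ), MeasurableSet F → mu w F ≤ v → PW w F C →
    PW w A (C + Λ * (mu w A - mu w F))

/-- `F` minimizes `perimeter - Λ volume` among the subsets of `Ω` of volume at most `v`. -/
structure MinB {b : ℕ} (ε : ℝ) (Ω : Set (PP b)) (Λ v : ℝ) (F : Set (PP b)) : Prop where
  meas : MeasurableSet F
  sub : F ⊆ Ω
  le : volume.real F ≤ v
  min : ∀ (G : Set (PP b)) (C : ℝ), MeasurableSet G → G ⊆ Ω → volume.real G ≤ v →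
    PLe ε Ω G C → PLe ε Ω F (C + Λ * (volume.real F - volume.real G))

/-- The difference quotient lower bound for the weighted variation of the indicator of `S ⊆ ℝ`. -/
def ev (u : ℝ → ℝ) (S : Set ℝ) : ℝ≥0∞ :=
  liminf (fun n : ℕ => ((n : ℝ≥0∞) + 1) * ∫⁻ t : ℝ, ENNReal.ofReal (u t *
    |S.indicator (fun _ => (1 : ℝ)) (t + 1 / ((n : ℝ) + 1)) - S.indicator (fun _ => (1 : ℝ)) t|))
    atTop

/-! ## A. The body -/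

/-- **A0.** Elementary geometry. -/
def S_A0 : Prop := ∀ m : ℕ, IsOpen (Bd m) ∧ Convex ℝ (Bd m) ∧ Bornology.IsBounded (Bd m) ∧
  (0 : PP (2 * m + 1)) ∈ Bd m

/-- **A1.** Volumes of cylindrical sets. -/
def S_A1 : Prop := ∀ (m : ℕ) (A : Set ℂ), MeasurableSet A →
  volume.real (cylO (Bd m) A) = NN m * mu (wt m) A

/-- **A2.** The perimeter of a cylindrical set is at most the weighted perimeter of the base. -/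
def S_A2 : Prop := ∀ (m : ℕ) (ε : ℝ), 0 < ε → ∀ A : Set ℂ, MeasurableSet A → ∀ C : ℝ,
  PW (wt m) A C → PLe ε (Bd m) (cylO (Bd m) A) (NN m * C)

/-- **A3.** Conversely: `x`-fields on the body bound the weighted perimeter of the base. -/
def S_A3 : Prop := ∀ (m : ℕ) (A : Set ℂ), MeasurableSet A → ∀ C : ℝ,
  (∀ φ : PP (2 * m + 1) → PP (2 * m + 1), Fld 1 (Bd m) φ → (∀ p, yc (φ p) = 0) →
    ∫ p in cylO (Bd m) A, dv φ p ≤ NN m * C) →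
  PW (wt m) A C

/-- **A4.** Hulls: the part of the body over neighbourhoods of `±1, ±i` spans the body. -/
def S_A4 : Prop := ∀ (m : ℕ) (ρ : ℝ), 0 < ρ →
  convexHull ℝ {p | p ∈ Bd m ∧ (‖xc p - 1‖ < ρ ∨ ‖xc p + 1‖ < ρ ∨ ‖xc p - Complex.I‖ < ρ ∨
    ‖xc p + Complex.I‖ < ρ)} = Bd m

/-! ## B. General facts on sets of finite perimeter in `ℝ^(b+2)` -/

/-- **B1.** Compactness. -/
def S_B1 : Prop := ∀ (b : ℕ) (Ω : Set (PP b)), IsOpen Ω → Convex ℝ Ω → Bornology.IsBounded Ω →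
  ∀ (F : ℕ → Set (PP b)) (C : ℝ), (∀ k, MeasurableSet (F k)) → (∀ k, F k ⊆ Ω) →
    (∀ k, PLe 1 Ω (F k) C) →
    ∃ (F0 : Set (PP b)) (ψ : ℕ → ℕ), MeasurableSet F0 ∧ F0 ⊆ Ω ∧ StrictMono ψ ∧
      Tendsto (fun k => volume (symmDiff (F (ψ k)) F0)) atTop (𝓝 0)

/-- **B2.** Convergence of the divergence integrals. -/
def S_B2 : Prop := ∀ (b : ℕ) (F : ℕ → Set (PP b)) (F0 : Set (PP b)),
  (∀ k, MeasurableSet (F k)) → MeasurableSet F0 →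
  Tendsto (fun k => volume (symmDiff (F k) F0)) atTop (𝓝 0) →
  ∀ φ : PP b → PP b, ContDiff ℝ 1 φ → HasCompactSupport φ →
    Tendsto (fun k => ∫ x in F k, dv φ x) atTop (𝓝 (∫ x in F0, dv φ x))

/-- **B3.** Existence of minimizers. -/
def S_B3 : Prop := ∀ (b : ℕ) (Ω : Set (PP b)), IsOpen Ω → Convex ℝ Ω → Bornology.IsBounded Ω →
  ∀ ε Λ v : ℝ, 0 < ε → ε ≤ 1 → 0 ≤ Λ → 0 ≤ v → ∃ F : Set (PP b), MinB ε Ω Λ v F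

/-- **B4.** A set with zero `y`-divergence is cylindrical. -/
def S_B4 : Prop := ∀ (b : ℕ) (Ω : Set (PP b)), IsOpen Ω → Convex ℝ Ω → Bornology.IsBounded Ω →
  ∀ F : Set (PP b), MeasurableSet F → F ⊆ Ω →
  (∀ φ : PP b → PP b, ContDiff ℝ 1 φ → HasCompactSupport φ → tsupport φ ⊆ Ω →
    (∀ p, xc (φ p) = 0) → ∫ x in F, dv φ x = 0) →
  ∃ A : Set ℂ, MeasurableSet A ∧ volume (symmDiff F (cylO Ω A)) = 0

/-- **B5.** Cutting a minimizer with a cylinder over a disc. -/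
def S_B5 : Prop := ∀ (b : ℕ) (ε : ℝ) (Ω : Set (PP b)) (Λ v : ℝ) (F : Set (PP b)), 0 < ε →
  IsOpen Ω → Bornology.IsBounded Ω → 0 ≤ Λ → MinB ε Ω Λ v F → ∀ (c : ℂ) (t d : ℝ), 0 < t →
  HasDerivAt (fun t : ℝ => volume.real (F ∩ {p | ‖xc p - c‖ < t})) d t →
  PLe ε Ω (F ∩ {p | ‖xc p - c‖ < t}) (2 * d + Λ * volume.real (F ∩ {p | ‖xc p - c‖ < t}))

/-- **B6.** Relative isoperimetric inequality for small sets in a convex body. -/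
def S_B6 : Prop := ∀ (b : ℕ) (Ω : Set (PP b)), IsOpen Ω → Convex ℝ Ω → Bornology.IsBounded Ω →
  Ω.Nonempty → ∃ c ω : ℝ, 0 < c ∧ 0 < ω ∧ ∀ (G : Set (PP b)) (P : ℝ), MeasurableSet G → G ⊆ Ω →
    volume.real G ≤ ω → 0 ≤ P → PLe 1 Ω G P →
    c * volume.real G ^ (((b : ℝ) + 1) / ((b : ℝ) + 2)) ≤ P

/-- **B7.** Minimizers with little volume over a disc have no volume over the half disc. -/
def S_B7 : Prop := ∀ (b : ℕ) (Ω : Set (PP b)), IsOpen Ω → Convex ℝ Ω → Bornology.IsBounded Ω →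
  Ω.Nonempty → ∀ (Λ v R : ℝ) (c : ℂ), 0 ≤ Λ → 0 < R →
  ∃ ω : ℝ, 0 < ω ∧ ∀ (ε : ℝ) (F : Set (PP b)), 0 < ε → ε ≤ 1 → MinB ε Ω Λ v F →
    volume.real (F ∩ {p | ‖xc p - c‖ < R}) ≤ ω → volume (F ∩ {p | ‖xc p - c‖ < R / 2}) = 0

/-- **B8.** Passage to the limit `ε → 0`. -/
def S_B8 : Prop := ∀ (m : ℕ) (Λ v : ℝ), 0 ≤ Λ → 0 ≤ v → ∀ (ε : ℕ → ℝ)
  (F : ℕ → Set (PP (2 * m + 1))), (∀ k, 0 < ε k ∧ ε k ≤ 1) → Tendsto ε atTop (𝓝 0) →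
  (∀ k, MinB (ε k) (Bd m) Λ (NN m * v) (F k)) →
  ∃ (A : Set ℂ) (ψ : ℕ → ℕ), MinW (wt m) Λ v A ∧ StrictMono ψ ∧
    Tendsto (fun k => volume (symmDiff (F (ψ k)) (cylO (Bd m) A))) atTop (𝓝 0)

/-- **B9.** Rescaling. -/
def S_B9 : Prop := ∀ (b : ℕ) (Ω : Set (PP b)) (ε : ℝ), 0 < ε → IsOpen Ω →
  ∀ E : Set (PP b), MeasurableSet E → E ⊆ Ω →
  ∀ C : ℝ, PLe ε Ω E C ↔ PLe 1 (sc ε '' Ω) (sc ε '' E) (ε ^ b * C)

/-! ## C. The planar problem -/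

/-- **C0.** Elementary properties of the weight. -/
def S_C0 : Prop := ∀ m : ℕ, 1 ≤ m → 0 < NN m ∧ Continuous (wt m) ∧ (∀ x, 0 ≤ wt m x) ∧
  (∀ x, wt m x ≤ 1) ∧ {x | 0 < wt m x} = DD ∧ ContDiffOn ℝ 1 (wt m) DD ∧
  Integrable (wt m) ∧
  (∀ a b : ℝ, wt m ⟨b, a⟩ = wt m ⟨a, b⟩) ∧ (∀ a b : ℝ, wt m ⟨-a, b⟩ = wt m ⟨a, b⟩) ∧
  (∀ a b : ℝ, wt m ⟨a, -b⟩ = wt m ⟨a, b⟩) ∧
  (∀ a a' b : ℝ, 0 ≤ a → a ≤ a' → wt m ⟨a', b⟩ ≤ wt m ⟨a, b⟩) ∧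
  (∀ x ∈ DD, wt m x = (∫ u in (|x.re| - 1 / 2)..(1 / 2 - |x.im|), (1 - 4 * u ^ 2) ^ m) / NN m)

/-- **C1.** The weight for large `m`. -/
def S_C1 : Prop := (∀ δ : ℝ, 0 < δ → ∃ m₀ : ℕ, ∀ m : ℕ, m₀ ≤ m →
  (∀ x : ℂ, |x.re| ≤ 1 / 2 - δ → |x.im| ≤ 1 / 2 - δ → 1 - δ ≤ wt m x) ∧
  (∀ x : ℂ, (1 / 2 + δ ≤ |x.re| ∨ 1 / 2 + δ ≤ |x.im|) → wt m x ≤ δ)) ∧
  (∃ m₀ : ℕ, ∀ m : ℕ, m₀ ≤ m →
    (∀ x : ℂ, |x.re| ≤ 1 / 2 → |x.im| ≤ 2 / 5 → 49 / 100 ≤ wt m x) ∧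
    (∀ x : ℂ, |x.re| ≤ 1 / 2 + 3 / 20 / √m → |x.im| ≤ 2 / 5 → 3 / 10 ≤ wt m x) ∧
    (∀ a b : ℝ, 1 / 2 ≤ a → |b| ≤ 9 / 20 → ∫ t in Ioi a, wt m ⟨t, b⟩ ≤ 2 / 5 / √m * wt m ⟨a, b⟩))

/-- **C2.** Variation along lines. -/
def S_C2 : Prop := ∀ (w u : ℂ → ℝ) (A : Set ℂ) (P : ℝ), Continuous w → (∀ x, 0 ≤ w x) →
  Continuous u → HasCompactSupport u → tsupport u ⊆ {x | 0 < w x} → (∀ x, 0 ≤ u x) →
  (∀ x, u x ≤ w x) → MeasurableSet A → PW w A P →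
  (∫⁻ y : ℝ, ev (fun t => u ⟨t, y⟩) {t | (⟨t, y⟩ : ℂ) ∈ A}) +
    (∫⁻ x : ℝ, ev (fun t => u ⟨x, t⟩) {t | (⟨x, t⟩ : ℂ) ∈ A}) ≤ ENNReal.ofReal (√2 * P)

/-- **C3.** Lower bounds for `ev`: one change on `(a,b)`, one change on each of two disjoint
intervals, and two changes around an interval. -/
def S_C3 : Prop := ∀ (u : ℝ → ℝ) (S : Set ℝ), Continuous u → (∀ t, 0 ≤ u t) → MeasurableSet S →
  (∀ a b κ : ℝ, a < b → 0 ≤ κ → (∀ t ∈ Ioo a b, κ ≤ u t) → 0 < volume (S ∩ Ioo a b) →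
    0 < volume (Ioo a b \ S) → ENNReal.ofReal κ ≤ ev u S) ∧
  (∀ a b a' b' κ κ' : ℝ, a < b → b ≤ a' → a' < b' → 0 ≤ κ → 0 ≤ κ' →
    (∀ t ∈ Ioo a b, κ ≤ u t) → (∀ t ∈ Ioo a' b', κ' ≤ u t) →
    0 < volume (S ∩ Ioo a b) → 0 < volume (Ioo a b \ S) →
    0 < volume (S ∩ Ioo a' b') → 0 < volume (Ioo a' b' \ S) →
    ENNReal.ofReal (κ + κ') ≤ ev u S) ∧
  (∀ a b c d κ : ℝ, a < b → b < c → c < d → 0 ≤ κ → (∀ t ∈ Ioo a d, κ ≤ u t) →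
    0 < volume (Ioo a b \ S) → 0 < volume (S ∩ Ioo b c) → 0 < volume (Ioo c d \ S) →
    ENNReal.ofReal (2 * κ) ≤ ev u S)

/-- **C4.** Concentration: a set of small perimeter splits badly, and is expensive in the window
`re > 2/5, |im| < 43/100` of the square. -/
def S_C4 : Prop := ∀ (w : ℂ → ℝ) (A : Set ℂ) (P δ : ℝ), Continuous w → (∀ x, 0 ≤ w x) →
  MeasurableSet A → 0 < δ → δ ≤ 1 / 1000 → 0 ≤ P →
  (∀ x : ℂ, |x.re| ≤ 1 / 2 - δ → |x.im| ≤ 1 / 2 - δ → 1 - δ ≤ w x) → PW w A P →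
  ∀ Q R : Set ℂ, Q = {x | |x.re| < 1 / 2 - δ ∧ |x.im| < 1 / 2 - δ} →
    R = {x | 2 / 5 < x.re ∧ |x.im| < 43 / 100} →
    √2 * (1 - δ) * (√(volume.real (A ∩ Q ∩ R)) + √(volume.real ((A ∩ Q) \ R))) ≤
      P + 200 * volume.real (A ∩ Q) ∧
    2 * (1 - δ) * √(volume.real (A ∩ Q ∩ R)) ≤ P + 200 * volume.real (A ∩ Q)

/-- **C5.** Isoperimetric inequality in the disc of radius `3/5` around the vertex `1`. -/
def S_C5 : Prop := ∃ m₀ : ℕ, ∀ m : ℕ, m₀ ≤ m → ∀ (G : Set ℂ) (P : ℝ), MeasurableSet G →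
  G ⊆ ball 1 (3 / 5) → 0 ≤ P → PW (wt m) G P → mu (wt m) G ≤ 11 / 10 * P ^ 2 + P / √m

/-- **C6.** Isoperimetric inequality in small discs at the entry of the tail. -/
def S_C6 : Prop := ∃ m₀ : ℕ, ∀ m : ℕ, m₀ ≤ m → ∀ (y : ℝ) (G : Set ℂ) (P : ℝ), |y| ≤ 1 / 4 →
  MeasurableSet G → G ⊆ ball ⟨1 / 2 + 1 / 20 / √m, y⟩ (1 / 20 / √m) → 0 ≤ P →
  PW (wt m) G P → 7 / 10 * √(mu (wt m) G) ≤ P

/-- **C7.** Calibration: a minimizer without mass at the entry has no mass near the vertex `1`. -/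
def S_C7 : Prop := ∀ Λ : ℝ, 0 ≤ Λ → ∃ m₀ : ℕ, ∀ m : ℕ, m₀ ≤ m → ∀ (v : ℝ) (A : Set ℂ),
  MinW (wt m) Λ v A →
  volume (A ∩ {x | |x.re - (1 / 2 + 1 / 20 / √m)| < 1 / 100 / √m ∧ |x.im| < 1 / 4}) = 0 →
  volume (A ∩ DD ∩ ball 1 (1 / 20)) = 0

/-- **C8.** The competitor: a disc around the corner `(1 + i)/2` of the square. -/
def S_C8 : Prop := ∀ δ : ℝ, 0 < δ → ∃ m₀ : ℕ, ∀ m : ℕ, m₀ ≤ m →
  ContinuousOn (fun r : ℝ => mu (wt m) (ball ⟨1 / 2, 1 / 2⟩ r)) (Icc 0 (3 / 10)) ∧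
  ∀ r ∈ Icc (0 : ℝ) (3 / 10), |mu (wt m) (ball ⟨1 / 2, 1 / 2⟩ r) - π * r ^ 2 / 4| ≤ δ ∧
    PW (wt m) (ball ⟨1 / 2, 1 / 2⟩ r) (π * r / 2 + δ)

/-- **C9.** Cutting a planar minimizer with a disc. -/
def S_C9 : Prop := ∀ (w : ℂ → ℝ) (Λ v : ℝ) (A : Set ℂ), Continuous w → (∀ x, 0 ≤ w x) →
  Integrable w → 0 ≤ Λ → MinW w Λ v A → ∀ (c : ℂ) (t d : ℝ), 0 < t →
  HasDerivAt (fun t : ℝ => mu w (A ∩ ball c t)) d t →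
  PW w (A ∩ ball c t) (2 * d + Λ * mu w (A ∩ ball c t))

/-- **C10.** Extinction in finite distance. -/
def S_C10 : Prop := ∀ (g : ℝ → ℝ) (r R c θ Λ K : ℝ), r < R → MonotoneOn g (Icc r R) →
  (∀ s ∈ Icc r R, ∀ t ∈ Icc r R, |g s - g t| ≤ K * |s - t|) → (∀ t ∈ Icc r R, 0 ≤ g t) →
  0 < c → 0 < θ → θ < 1 → 0 ≤ Λ →
  (∀ t ∈ Ioo r R, ∀ d : ℝ, HasDerivAt g d t → c * g t ^ θ ≤ 2 * d + Λ * g t) →
  Λ * g R ^ (1 - θ) ≤ c / 2 → g R ^ (1 - θ) < (1 - θ) * c * (R - r) / 4 → g r = 0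

/-- **C11.** The first differential inequality. -/
def S_C11 : Prop := ∀ (g : ℝ → ℝ) (Λ κ K : ℝ), MonotoneOn g (Icc (29 / 50) (3 / 5)) →
  (∀ s ∈ Icc (29 / 50 : ℝ) (3 / 5), ∀ t ∈ Icc (29 / 50 : ℝ) (3 / 5), |g s - g t| ≤ K * |s - t|) →
  (∀ t ∈ Icc (29 / 50 : ℝ) (3 / 5), 0 ≤ g t) → 2000 ≤ Λ → 0 < κ → κ ≤ 1 / (40 * Λ) →
  κ ≤ 1 / 10 ^ 6 → Λ ^ 2 * g (3 / 5) ≤ 43 / 100 →
  (∀ t ∈ Ioo (29 / 50 : ℝ) (3 / 5), ∀ d : ℝ, HasDerivAt g d t →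
    g t ≤ 11 / 10 * (2 * d + Λ * g t) ^ 2 + κ * (2 * d + Λ * g t)) →
  g (29 / 50) ≤ κ ^ 2 / 10 ^ 6

/-- **C12.** Symmetries. -/
def S_C12 : Prop := ∀ (w : ℂ → ℝ) (T : ℂ ≃ₗᵢ[ℝ] ℂ), (∀ x, w (T x) = w x) →
  ∀ (Λ v : ℝ) (A : Set ℂ), MinW w Λ v A → MinW w Λ v (T ⁻¹' A)

/-- **C13.** The planar theorem: for suitable `Λ, v` and large `m` a disc has negative energy, and
minimizers have no mass near the four vertices. -/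
def S_C13 : Prop := ∃ (Λ v : ℝ) (m : ℕ), 0 < Λ ∧ 0 < v ∧ v ≤ 1 / 100 ∧ 1 ≤ m ∧
  (∃ (G : Set ℂ) (C : ℝ), MeasurableSet G ∧ mu (wt m) G ≤ v ∧ PW (wt m) G C ∧
    C < Λ * mu (wt m) G) ∧
  ∀ A : Set ℂ, MinW (wt m) Λ v A → ∀ c : ℂ, (c = 1 ∨ c = -1 ∨ c = Complex.I ∨ c = -Complex.I) →
    volume (A ∩ DD ∩ ball c (1 / 20)) = 0

end Pool.Agent.TH703.HU
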